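import Mathlib
import Pool.Agent.N718.DC.Stm2

/-!
# DC/REAL: constant suitable signs on finitely many intervals (helper713)
-/

set_option autoImplicit false

namespace Pool.Agent.N713.DC

open Finset Pool.Agent.N718.DC

section signs

variable {r : ℕ}

/-- Signs for which all the conics have real points. -/
def RSf (f : Fin r × Fin 3 → ℝ) : Prop :=
  (∀ k, f k ≠ 0) ∧ ∀ i, ¬ (0 < f (i, 0) ∧ 0 < f (i, 1) ∧ f (i, 2) < 0) ∧
    ¬ (f (i, 0) < 0 ∧ f (i, 1) < 0 ∧ 0 < f (i, 2))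

theorem RSf_congr {f g : Fin r × Fin 3 → ℝ}
    (h : ∀ k, (0 < f k ↔ 0 < g k) ∧ (f k < 0 ↔ g k < 0)) (hf : RSf f) : RSf g := by
  refine ⟨fun k h0 => ?_, fun i => ?_⟩
  · rcases lt_or_gt_of_ne (hf.1 k) with h1 | h1
    · have := (h k).2.1 h1
      linarith
    · have := (h k).1.1 h1
      linarith
  · rw [← (h (i, 0)).1, ← (h (i, 1)).1, ← (h (i, 2)).2, ← (h (i, 0)).2, ← (h (i, 1)).2,
      ← (h (i, 2)).1]
    exact hf.2 i

theorem sol_signs {A B C : ℝ} (h : Sol A B C) :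
    ¬ (0 < A ∧ 0 < B ∧ C < 0) ∧ ¬ (A < 0 ∧ B < 0 ∧ 0 < C) := by
  obtain ⟨u, v, w, hne, heq⟩ := h
  constructor
  · rintro ⟨hA, hB, hC⟩
    have hu := mul_nonneg hA.le (sq_nonneg u)
    have hv := mul_nonneg hB.le (sq_nonneg v)
    have hw := mul_nonneg (neg_pos.2 hC).le (sq_nonneg w)
    have hu0 : A * u ^ 2 = 0 := by nlinarith
    have hv0 : B * v ^ 2 = 0 := by nlinarith
    have hw0 : C * w ^ 2 = 0 := by nlinarith
    rcases hne with h1 | h1 | h1
    · exact (mul_ne_zero hA.ne' (pow_ne_zero 2 h1)) hu0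
    · exact (mul_ne_zero hB.ne' (pow_ne_zero 2 h1)) hv0
    · exact (mul_ne_zero hC.ne (pow_ne_zero 2 h1)) hw0
  · rintro ⟨hA, hB, hC⟩
    have hu := mul_nonneg (neg_pos.2 hA).le (sq_nonneg u)
    have hv := mul_nonneg (neg_pos.2 hB).le (sq_nonneg v)
    have hw := mul_nonneg hC.le (sq_nonneg w)
    have hu0 : A * u ^ 2 = 0 := by nlinarith
    have hv0 : B * v ^ 2 = 0 := by nlinarith
    have hw0 : C * w ^ 2 = 0 := by nlinarith
    rcases hne with h1 | h1 | h1
    · exact (mul_ne_zero hA.ne (pow_ne_zero 2 h1)) hu0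
    · exact (mul_ne_zero hB.ne (pow_ne_zero 2 h1)) hv0
    · exact (mul_ne_zero hC.ne' (pow_ne_zero 2 h1)) hw0

end signs

section forms

variable {r : ℕ} {e : Fin r × Fin 3 → ℕ}

/-- The index set of the coefficients. -/
abbrev KK (e : Fin r × Fin 3 → ℕ) : Type := Σ k : Fin r × Fin 3, Fin (e k + 2)

/-- The values of the polynomials. -/
def FF (c : KK e → ℝ) (k : Fin r × Fin 3) (z : ℝ) : ℝ := ∑ j : Fin (e k + 2), c ⟨k, j⟩ * z ^ (j : ℕ)

/-- No points with suitable signs in `Y`. -/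
def NS (e : Fin r × Fin 3 → ℕ) (Y : Set ℝ) : Set (KK e → ℝ) :=
  {c | ∀ z ∈ Y, ¬ RSf (fun k => FF c k z)}

theorem FF_smul (l : ℝ) (c : KK e → ℝ) (k : Fin r × Fin 3) (z : ℝ) :
    FF (l • c) k z = l * FF c k z := by
  unfold FF
  rw [mul_sum]
  refine sum_congr rfl fun j _ => ?_
  rw [Pi.smul_apply, smul_eq_mul, mul_assoc]

theorem FF_update (c : KK e → ℝ) (x : KK e) (t : ℝ) (k : Fin r × Fin 3) (z : ℝ) :
    FF (Function.update c x t) k z =
      FF (Function.update c x 0) k z + t * FF (Pi.single x 1) k z := by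
  unfold FF
  rw [mul_sum, ← sum_add_distrib]
  refine sum_congr rfl fun j _ => ?_
  by_cases h : (⟨k, j⟩ : KK e) = x
  · subst h
    simp
  · rw [Function.update_of_ne h, Function.update_of_ne h, Pi.single_eq_of_ne h]
    ring

theorem FF_single {x : KK e} {k : Fin r × Fin 3} (h : k ≠ x.1) (z : ℝ) :
    FF (Pi.single x 1) k z = 0 := by
  unfold FF
  refine sum_eq_zero fun j _ => ?_
  have hx : (⟨k, j⟩ : KK e) ≠ x := fun h0 => h (by rw [← h0])
  rw [Pi.single_eq_of_ne hx, zero_mul]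

theorem NS_cone (Y : Set ℝ) : ∀ c ∈ NS e Y, ∀ l : ℝ, 0 < l → l • c ∈ NS e Y := by
  intro c hc l hl z hz hR
  refine hc z hz (RSf_congr (fun k => ?_) hR)
  simp only [FF_smul]
  exact ⟨mul_pos_iff_of_pos_left hl, by
    constructor
    · intro h
      by_contra h1
      push Not at h1
      have := mul_nonneg hl.le h1
      linarith
    · intro h
      exact mul_neg_of_pos_of_neg hl h⟩

theorem NS_ord (Y : Set ℝ) (c : KK e → ℝ) (x : KK e) :
    {τ : ℝ | Function.update c x τ ∈ NS e Y}.OrdConnected := by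
  refine ⟨fun a ha b hb τ hτ z hz hR => ?_⟩
  set B : ℝ := FF (Pi.single x 1) x.1 z with hB
  set v : ℝ := FF (Function.update c x τ) x.1 z with hv
  have key : ∀ t : ℝ, 0 ≤ (t - τ) * B * v → RSf (fun k => FF (Function.update c x t) k z) := by
    intro t ht
    refine RSf_congr (fun k => ?_) hR
    by_cases hk : k = x.1
    · subst hk
      have h1 : FF (Function.update c x t) x.1 z = v + (t - τ) * B := by
        rw [hv, FF_update c x t, FF_update c x τ]
        ring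
      have hv0 : v ≠ 0 := hR.1 x.1
      show (0 < v ↔ 0 < FF (Function.update c x t) x.1 z) ∧
        (v < 0 ↔ FF (Function.update c x t) x.1 z < 0)
      rw [h1]
      rcases lt_or_gt_of_ne hv0 with h2 | h2
      · have h3 : (t - τ) * B ≤ 0 := by
          by_contra h4
          push Not at h4
          have := mul_neg_of_pos_of_neg h4 h2
          linarith
        exact ⟨⟨fun h => by linarith, fun h => by linarith⟩,
          ⟨fun h => by linarith, fun _ => h2⟩⟩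
      · have h3 : 0 ≤ (t - τ) * B := by
          by_contra h4
          push Not at h4
          have := mul_neg_of_neg_of_pos h4 h2
          linarith
        exact ⟨⟨fun h => by linarith, fun _ => h2⟩,
          ⟨fun h => by linarith, fun h => by linarith⟩⟩
    · have h1 : FF (Function.update c x t) k z = FF (Function.update c x τ) k z := by
        rw [FF_update c x t, FF_update c x τ, FF_single hk, mul_zero, mul_zero]
      simp [h1]
  rcases le_total 0 (B * v) with h | h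
  · refine hb z hz (key b ?_)
    have h1 : 0 ≤ b - τ := by linarith [hτ.2]
    have := mul_nonneg h1 h
    rw [mul_assoc]
    exact this
  · refine ha z hz (key a ?_)
    have h1 : a - τ ≤ 0 := by linarith [hτ.1]
    rw [mul_assoc]
    exact mul_nonneg_of_nonpos_of_nonpos h1 h

theorem fmv_eq (c : (k : Fin r × Fin 3) → Fin (e k + 2) → ℤ) (k : Fin r × Fin 3) (z : ℝ) :
    fmv (c k) 1 z = FF (fun x : KK e => ((c x.1 x.2 : ℤ) : ℝ)) k z := by
  unfold fmv fm FF
  refine sum_congr rfl fun j _ => ?_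
  rw [one_pow, mul_one]

theorem PS_RS {c : (k : Fin r × Fin 3) → Fin (e k + 2) → ℤ} {z : ℝ} (h : PS c (1 : ℝ) z) :
    RSf (fun k => FF (fun x : KK e => ((c x.1 x.2 : ℤ) : ℝ)) k z) := by
  obtain ⟨h1, h2⟩ := h
  simp only [← fmv_eq]
  exact ⟨h1, fun i => sol_signs (h2 i)⟩

end forms

/-! ### counting -/

theorem card_near (a b : ℝ) (hb : 0 ≤ b) :
    ((Icc ⌈-a - b⌉ ⌊-a + b⌋).card : ℝ) ≤ 2 * b + 1 := by
  rw [Int.card_Icc]
  by_cases h : 0 ≤ ⌊-a + b⌋ + 1 - ⌈-a - b⌉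
  · have h1 : (((⌊-a + b⌋ + 1 - ⌈-a - b⌉).toNat : ℕ) : ℝ) = ((⌊-a + b⌋ + 1 - ⌈-a - b⌉ : ℤ) : ℝ) := by
      have := Int.toNat_of_nonneg h
      exact_mod_cast congrArg (fun z : ℤ => (z : ℝ)) this
    rw [h1]
    push_cast
    have h2 := Int.floor_le (-a + b)
    have h3 := Int.le_ceil (-a - b)
    linarith
  · have h1 : (⌊-a + b⌋ + 1 - ⌈-a - b⌉).toNat = 0 := Int.toNat_of_nonpos (by omega)
    rw [h1]
    push_cast
    linarith

open Classical in
theorem count_near {κ : Type} [Fintype κ] [DecidableEq κ] (x : κ) (g : (κ → ℤ) → ℝ)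
    (hg : ∀ c t, g (Function.update c x t) = g c) (H : ℕ) (b : ℝ) (hb : 0 ≤ b) :
    (((Fintype.piFinset (fun _ : κ => Icc (-(H : ℤ)) H)).filter
      (fun c => |(c x : ℝ) + g c| ≤ b)).card : ℝ) * ((2 * H + 1 : ℕ) : ℝ) ≤
      (2 * b + 1) * ((2 * H + 1 : ℕ) : ℝ) ^ Fintype.card κ := by
  set T := (Fintype.piFinset (fun _ : κ => Icc (-(H : ℤ)) H)).filter
      (fun c => |(c x : ℝ) + g c| ≤ b) with hT
  set P : Finset (κ → ℤ) := Fintype.piFinset (fun j : κ => if j = x then {0} else Icc (-(H : ℤ)) H)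
    with hP
  have hcard : (Icc (-(H : ℤ)) H).card = 2 * H + 1 := by
    rw [Int.card_Icc]
    omega
  have hPc : P.card * (2 * H + 1) = (2 * H + 1) ^ Fintype.card κ := by
    rw [hP, Fintype.card_piFinset]
    have e1 : 2 * H + 1 = ∏ j : κ, if j = x then 2 * H + 1 else 1 := by
      rw [prod_ite_eq' univ x]
      simp
    have e2 : (2 * H + 1) ^ Fintype.card κ = ∏ _j : κ, (2 * H + 1) := by simp
    conv_lhs => rw [e1]
    rw [e2, ← prod_mul_distrib]
    refine prod_congr rfl fun j _ => ?_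
    by_cases h : j = x
    · simp [h]
    · simp only [if_neg h, mul_one]
      exact hcard
  have hmaps : ∀ c ∈ T, Function.update c x 0 ∈ P := by
    intro c hc
    rw [hP, Fintype.mem_piFinset]
    intro j
    by_cases h : j = x
    · subst h
      simp
    · rw [Function.update_of_ne h, if_neg h]
      exact Fintype.mem_piFinset.1 (mem_filter.1 hc).1 j
  have hfib : ∀ c' ∈ P, ((T.filter fun c => Function.update c x 0 = c').card : ℝ) ≤ 2 * b + 1 := by
    intro c' _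
    refine le_trans ?_ (card_near (g c') b hb)
    refine Nat.cast_le.2 (card_le_card_of_injOn (fun c => c x) ?_ ?_)
    · intro c hc
      have hc' := mem_filter.1 hc
      have h1 : |(c x : ℝ) + g c| ≤ b := (mem_filter.1 hc'.1).2
      have h2 : g c = g c' := by rw [← hc'.2, hg]
      rw [h2] at h1
      obtain ⟨h3, h4⟩ := abs_le.1 h1
      show c x ∈ ((Icc ⌈-g c' - b⌉ ⌊-g c' + b⌋ : Finset ℤ) : Set ℤ)
      rw [mem_coe, mem_Icc]
      exact ⟨Int.ceil_le.2 (by linarith), Int.le_floor.2 (by linarith)⟩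
    · intro c hc d hd hcd
      have hc' := (mem_filter.1 hc).2
      have hd' := (mem_filter.1 hd).2
      have h1 := hc'.trans hd'.symm
      funext j
      by_cases h : j = x
      · subst h; exact hcd
      · have := congrFun h1 j
        rwa [Function.update_of_ne h, Function.update_of_ne h] at this
  have hsum : (T.card : ℝ) ≤ P.card * (2 * b + 1) := by
    rw [card_eq_sum_card_fiberwise hmaps]
    push_cast
    refine (sum_le_card_nsmul _ _ _ hfib).trans ?_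
    rw [nsmul_eq_mul]
  have hPc' : (P.card : ℝ) * ((2 * H + 1 : ℕ) : ℝ) = ((2 * H + 1 : ℕ) : ℝ) ^ Fintype.card κ := by
    exact_mod_cast hPc
  calc (T.card : ℝ) * ((2 * H + 1 : ℕ) : ℝ) ≤ (P.card * (2 * b + 1)) * ((2 * H + 1 : ℕ) : ℝ) :=
        mul_le_mul_of_nonneg_right hsum (Nat.cast_nonneg _)
    _ = (2 * b + 1) * ((P.card : ℝ) * ((2 * H + 1 : ℕ) : ℝ)) := by ring
    _ = _ := by rw [hPc']

open Classical in
theorem count_FF {r : ℕ} {e : Fin r × Fin 3 → ℕ} (k : Fin r × Fin 3) (z : ℝ) (H : ℕ) (b : ℝ)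
    (hb : 0 ≤ b) :
    (((Fintype.piFinset (fun _ : KK e => Icc (-(H : ℤ)) H)).filter
      (fun c => |FF (fun x : KK e => (c x : ℝ)) k z| ≤ b)).card : ℝ) * ((2 * H + 1 : ℕ) : ℝ) ≤
      (2 * b + 1) * ((2 * H + 1 : ℕ) : ℝ) ^ Fintype.card (KK e) := by
  have h := count_near (κ := KK e) ⟨k, 0⟩
    (fun c => ∑ j : Fin (e k + 1), (c ⟨k, j.succ⟩ : ℝ) * z ^ ((j.succ : Fin (e k + 2)) : ℕ))
    (fun c t => by
      refine sum_congr rfl fun j _ => ?_
      rw [Function.update_of_ne]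
      intro h0
      rw [Sigma.mk.injEq] at h0
      exact Fin.succ_ne_zero j (eq_of_heq h0.2)) H b hb
  have e1 : ∀ c : KK e → ℤ, FF (fun x : KK e => (c x : ℝ)) k z = (c ⟨k, 0⟩ : ℝ) +
      ∑ j : Fin (e k + 1), (c ⟨k, j.succ⟩ : ℝ) * z ^ ((j.succ : Fin (e k + 2)) : ℕ) := by
    intro c
    unfold FF
    rw [Fin.sum_univ_succ]
    simp
  simp only [e1]
  exact h

/-! ### small intervals -/

theorem near {r : ℕ} {e : Fin r × Fin 3 → ℕ} {U : Set ℝ} (hU : IsOpen U) {z : ℝ} (hz : z ∈ U)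
    {δ : ℝ} (hδ : 0 < δ) : ∃ ρ : ℝ, 0 < ρ ∧ Set.Icc (z - ρ) (z + ρ) ⊆ U ∧
      ∀ z' ∈ Set.Icc (z - ρ) (z + ρ), ∀ k : Fin r × Fin 3,
        ∑ j : Fin (e k + 2), |z' ^ (j : ℕ) - z ^ (j : ℕ)| ≤ δ := by
  set G : ℝ → ℝ := fun z' => ∑ k : Fin r × Fin 3, ∑ j : Fin (e k + 2), |z' ^ (j : ℕ) - z ^ (j : ℕ)|
    with hG
  have hGc : Continuous G := by
    rw [hG]
    fun_prop
  have hG0 : G z = 0 := by
    rw [hG]
    simp
  have h1 : {z' | G z' < δ} ∈ nhds z := by
    refine (isOpen_lt hGc continuous_const).mem_nhds ?_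
    show G z < δ
    rw [hG0]
    exact hδ
  obtain ⟨ρ, hρ, hsub⟩ := Metric.nhds_basis_closedBall.mem_iff.1
    (Filter.inter_mem (hU.mem_nhds hz) h1)
  rw [Real.closedBall_eq_Icc] at hsub
  refine ⟨ρ, hρ, fun z' hz' => (hsub hz').1, fun z' hz' k => ?_⟩
  have h2 : G z' < δ := (hsub hz').2
  have h3 : ∑ j : Fin (e k + 2), |z' ^ (j : ℕ) - z ^ (j : ℕ)| ≤ G z' :=
    single_le_sum (f := fun k : Fin r × Fin 3 => ∑ j : Fin (e k + 2), |z' ^ (j : ℕ) - z ^ (j : ℕ)|)
      (fun k _ => sum_nonneg fun j _ => abs_nonneg _) (mem_univ k)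
  linarith

theorem FF_near {r : ℕ} {e : Fin r × Fin 3 → ℕ} {c : KK e → ℤ} {H : ℕ}
    (hc : ∀ x, |c x| ≤ (H : ℤ)) {z z' δ : ℝ} (k : Fin r × Fin 3)
    (h : ∑ j : Fin (e k + 2), |z' ^ (j : ℕ) - z ^ (j : ℕ)| ≤ δ) :
    |FF (fun x : KK e => (c x : ℝ)) k z' - FF (fun x : KK e => (c x : ℝ)) k z| ≤ δ * H := by
  unfold FF
  rw [← sum_sub_distrib]
  refine (abs_sum_le_sum_abs _ _).trans ?_
  have h1 : ∀ j ∈ (univ : Finset (Fin (e k + 2))),
      |(c ⟨k, j⟩ : ℝ) * z' ^ (j : ℕ) - (c ⟨k, j⟩ : ℝ) * z ^ (j : ℕ)| ≤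
      |z' ^ (j : ℕ) - z ^ (j : ℕ)| * H := by
    intro j _
    rw [← mul_sub, abs_mul, mul_comm]
    refine mul_le_mul_of_nonneg_left ?_ (abs_nonneg _)
    have := hc ⟨k, j⟩
    exact_mod_cast this
  refine (sum_le_sum h1).trans ?_
  rw [← sum_mul]
  exact mul_le_mul_of_nonneg_right h (Nat.cast_nonneg _)

theorem real_ (h : S_ORTHO) : S_REAL := by
  classical
  intro r e U hU η hη
  obtain ⟨C, hC0, hC⟩ := h (KK e)
  obtain ⟨H₁, hH1, hH1C⟩ : ∃ H₁ : ℕ, 1 ≤ H₁ ∧ 2 * C / (H₁ : ℝ) ≤ η / 2 := by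
    refine ⟨⌈4 * C / η⌉₊ + 1, by omega, ?_⟩
    have h1 := Nat.le_ceil (4 * C / η)
    rw [div_le_iff₀ hη] at h1
    rw [div_le_iff₀ (by positivity)]
    push_cast
    nlinarith
  have hN : Fintype.card (KK e) = ncI e := by
    unfold ncI
    simp [Fintype.card_sigma]
  -- the witnesses
  have hwit : ∀ c : KK e → ℤ, ∃ z : ℝ, (fun x => (c x : ℝ)) ∉ NS e U →
      z ∈ U ∧ RSf (fun k => FF (fun x : KK e => (c x : ℝ)) k z) := by
    intro c
    by_cases hc : (fun x => (c x : ℝ)) ∈ NS e U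
    · exact ⟨0, fun h0 => absurd hc h0⟩
    · have hc' := hc
      unfold NS at hc'
      simp only [Set.mem_ofPred_eq, not_forall, not_not] at hc'
      obtain ⟨z, hz, hR⟩ := hc'
      exact ⟨z, fun _ => ⟨hz, hR⟩⟩
  choose wz hwz using hwit
  set B1 : Finset (KK e → ℤ) := Fintype.piFinset (fun _ : KK e => Icc (-(H₁ : ℤ)) H₁) with hB1
  set Y : Finset ℝ := (B1.filter fun c => (fun x => (c x : ℝ)) ∉ NS e U).image wz with hY
  have hYU : ∀ z ∈ Y, z ∈ U := by
    intro z hz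
    rw [hY, mem_image] at hz
    obtain ⟨c, hc, rfl⟩ := hz
    exact (hwz c (mem_filter.1 hc).2).1
  have hNSsub : ∀ c : KK e → ℝ, c ∈ NS e U → c ∈ NS e (Y : Set ℝ) :=
    fun c hc z hz => hc z (hYU z hz)
  have hNS1 : ∀ c ∈ B1, (fun x => (c x : ℝ)) ∈ NS e (Y : Set ℝ) →
      (fun x => (c x : ℝ)) ∈ NS e U := by
    intro c hc hcY
    by_contra hcU
    exact hcY (wz c) (mem_coe.2 (mem_image.2 ⟨c, mem_filter.2 ⟨hc, hcU⟩, rfl⟩)) (hwz c hcU).2
  -- the constants
  set A : ℝ := (Y.card : ℝ) * (Fintype.card (Fin r × Fin 3) : ℝ) with hA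
  have hA0 : 0 ≤ A := by positivity
  set δ : ℝ := η / (4 * (A + 1)) with hδ
  have hδ0 : 0 < δ := by positivity
  have hAδ : A * δ ≤ η / 4 := by
    rw [hδ, mul_div_assoc', div_le_div_iff₀ (by positivity) (by norm_num)]
    nlinarith
  have hρ : ∀ z : ℝ, ∃ ρ : ℝ, z ∈ U → 0 < ρ ∧ Set.Icc (z - ρ) (z + ρ) ⊆ U ∧
      ∀ z' ∈ Set.Icc (z - ρ) (z + ρ), ∀ k : Fin r × Fin 3,
        ∑ j : Fin (e k + 2), |z' ^ (j : ℕ) - z ^ (j : ℕ)| ≤ δ := by
    intro z
    by_cases hz : z ∈ U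
    · obtain ⟨ρ, h1⟩ := near (e := e) hU hz hδ0
      exact ⟨ρ, fun _ => h1⟩
    · exact ⟨0, fun h0 => absurd h0 hz⟩
  choose ρ hρ using hρ
  refine ⟨Y.image fun z => (z - ρ z, z + ρ z), max H₁ ⌈2 * A / η⌉₊, ?_, fun H hH => ?_⟩
  · intro w hw
    rw [mem_image] at hw
    obtain ⟨z, hz, rfl⟩ := hw
    obtain ⟨h1, h2, -⟩ := hρ z (hYU z hz)
    exact ⟨by linarith, h2⟩
  have hHH1 : H₁ ≤ H := (le_max_left _ _).trans hH
  have hHA : 2 * A / η ≤ (H : ℝ) :=
    (Nat.le_ceil _).trans (Nat.cast_le.2 ((le_max_right _ _).trans hH))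
  have hHA' : A ≤ η / 2 * H := by
    rw [div_le_iff₀ hη] at hHA
    linarith
  set BH : Finset (KK e → ℤ) := Fintype.piFinset (fun _ : KK e => Icc (-(H : ℤ)) H) with hBH
  set L : ℝ := ((2 * H + 1 : ℕ) : ℝ) with hL
  have hL0 : 0 < L := by
    rw [hL]
    positivity
  have hLH : L = 2 * (H : ℝ) + 1 := by rw [hL]; push_cast; rfl
  set N := Fintype.card (KK e) with hNd
  -- the first bad set
  set T1 : Finset (KK e → ℤ) := BH.filter fun c => (fun x => (c x : ℝ)) ∈ NS e (Y : Set ℝ) ∧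
    ¬ (fun x => (c x : ℝ)) ∈ NS e U with hT1
  have hT1c : (T1.card : ℝ) ≤ η / 2 * L ^ N := by
    have hYc := hC (NS e (Y : Set ℝ)) (NS_cone _) (NS_ord _) H₁ H hH1 hHH1
    have hUc := hC (NS e U) (NS_cone _) (NS_ord _) H₁ H hH1 hHH1
    have heq : (B1.filter fun c => (fun x => (c x : ℝ)) ∈ NS e (Y : Set ℝ)) =
        B1.filter fun c => (fun x => (c x : ℝ)) ∈ NS e U := by
      refine filter_congr fun c hc => ⟨hNS1 c hc, hNSsub _⟩
    rw [← hB1, ← hBH, heq] at hYc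
    rw [← hB1, ← hBH] at hUc
    have hsplit : T1.card + (BH.filter fun c => (fun x => (c x : ℝ)) ∈ NS e U).card =
        (BH.filter fun c => (fun x => (c x : ℝ)) ∈ NS e (Y : Set ℝ)).card := by
      rw [← card_union_of_disjoint]
      · congr 1
        ext c
        simp only [hT1, mem_union, mem_filter]
        constructor
        · rintro (⟨h1, h2, -⟩ | ⟨h1, h2⟩)
          · exact ⟨h1, h2⟩
          · exact ⟨h1, hNSsub _ h2⟩
        · rintro ⟨h1, h2⟩
          by_cases h3 : (fun x => (c x : ℝ)) ∈ NS e U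
          · exact Or.inr ⟨h1, h3⟩
          · exact Or.inl ⟨h1, h2, h3⟩
      · rw [disjoint_left]
        intro c hc hc'
        exact (mem_filter.1 hc).2.2 (mem_filter.1 hc').2
    have h1 : ((BH.filter fun c => (fun x => (c x : ℝ)) ∈ NS e (Y : Set ℝ)).card : ℝ) / L ^ N -
        ((BH.filter fun c => (fun x => (c x : ℝ)) ∈ NS e U).card : ℝ) / L ^ N ≤ η / 2 := by
      have h2 := (abs_le.1 hYc).2
      have h3 := (abs_le.1 hUc).1
      have h4 : 2 * C / (H₁ : ℝ) = C / H₁ + C / H₁ := by ring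
      rw [h4] at hH1C
      linarith
    rw [← hsplit] at h1
    push_cast at h1
    rw [add_div, add_sub_cancel_right, div_le_iff₀ (by positivity)] at h1
    exact h1
  -- the second bad set
  set T2 : Finset (KK e → ℤ) := Y.biUnion fun z => (univ : Finset (Fin r × Fin 3)).biUnion fun k =>
    BH.filter fun c => |FF (fun x : KK e => (c x : ℝ)) k z| ≤ δ * H with hT2
  have hT2c : (T2.card : ℝ) ≤ η / 2 * L ^ N := by
    have h1 : (T2.card : ℝ) * L ≤ A * ((2 * (δ * H) + 1) * L ^ N) := by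
      have h2 : (T2.card : ℝ) ≤ ∑ z ∈ Y, ∑ k : Fin r × Fin 3,
          ((BH.filter fun c => |FF (fun x : KK e => (c x : ℝ)) k z| ≤ δ * H).card : ℝ) := by
        have h3 : T2.card ≤ ∑ z ∈ Y, ∑ k : Fin r × Fin 3,
            (BH.filter fun c => |FF (fun x : KK e => (c x : ℝ)) k z| ≤ δ * H).card :=
          card_biUnion_le.trans (sum_le_sum fun z _ => card_biUnion_le)
        exact_mod_cast h3
      calc (T2.card : ℝ) * L ≤ (∑ z ∈ Y, ∑ k : Fin r × Fin 3,
            ((BH.filter fun c => |FF (fun x : KK e => (c x : ℝ)) k z| ≤ δ * H).card : ℝ)) * L :=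
            mul_le_mul_of_nonneg_right h2 hL0.le
        _ = ∑ z ∈ Y, ∑ k : Fin r × Fin 3,
            (((BH.filter fun c => |FF (fun x : KK e => (c x : ℝ)) k z| ≤ δ * H).card : ℝ) * L) := by
            rw [sum_mul]
            exact sum_congr rfl fun z _ => sum_mul _ _ _
        _ ≤ ∑ z ∈ Y, ∑ k : Fin r × Fin 3, ((2 * (δ * H) + 1) * L ^ N) := by
            refine sum_le_sum fun z _ => sum_le_sum fun k _ => ?_
            exact count_FF k z H (δ * H) (by positivity)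
        _ = A * ((2 * (δ * H) + 1) * L ^ N) := by
            rw [sum_const, sum_const, card_univ, nsmul_eq_mul, nsmul_eq_mul, hA]
            ring
    have h2 : A * (2 * (δ * H) + 1) ≤ η / 2 * L := by
      rw [hLH]
      have h3 : A * (2 * (δ * H)) = 2 * (A * δ) * H := by ring
      have h4 : 2 * (A * δ) * H ≤ 2 * (η / 4) * H := by
        have : (0 : ℝ) ≤ H := Nat.cast_nonneg _
        gcongr
      nlinarith
    have h3 : (T2.card : ℝ) * L ≤ (η / 2 * L ^ N) * L := by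
      calc (T2.card : ℝ) * L ≤ A * ((2 * (δ * H) + 1) * L ^ N) := h1
        _ = (A * (2 * (δ * H) + 1)) * L ^ N := by ring
        _ ≤ (η / 2 * L) * L ^ N := mul_le_mul_of_nonneg_right h2 (by positivity)
        _ = _ := by ring
    exact le_of_mul_le_mul_right h3 hL0
  -- the bad set
  have hcov : ((BXI e H).filter (fun c => (∃ z ∈ U, PS c (1 : ℝ) z) ∧
      ¬ ∃ w ∈ (Y.image fun z => (z - ρ z, z + ρ z)), ∃ s : Fin r × Fin 3 → ℤ, SS s ∧
        ∀ k, ∀ z : ℝ, w.1 < z → z < w.2 → 0 < (s k : ℝ) * fmv (c k) 1 z)).card ≤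
      (T1 ∪ T2).card := by
    refine card_le_card_of_injOn (fun c => fun x : KK e => c x.1 x.2) ?_ ?_
    · intro c hc
      obtain ⟨hcB, ⟨z₀, hz₀, hPS⟩, hnot⟩ := mem_filter.1 (mem_coe.1 hc)
      unfold BXI at hcB
      rw [Fintype.mem_piFinset] at hcB
      have hbox : ∀ x : KK e, c x.1 x.2 ∈ Icc (-(H : ℤ)) H := fun x =>
        Fintype.mem_piFinset.1 (hcB x.1) x.2
      have hmemB : (fun x : KK e => c x.1 x.2) ∈ BH := by
        rw [hBH, Fintype.mem_piFinset]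
        exact hbox
      have hnU : ¬ (fun x : KK e => ((c x.1 x.2 : ℤ) : ℝ)) ∈ NS e U := fun h0 =>
        h0 z₀ hz₀ (PS_RS hPS)
      rw [mem_coe, mem_union]
      by_cases hcY : (fun x : KK e => ((c x.1 x.2 : ℤ) : ℝ)) ∈ NS e (Y : Set ℝ)
      · left
        exact mem_filter.2 ⟨hmemB, hcY, hnU⟩
      · right
        unfold NS at hcY
        simp only [Set.mem_ofPred_eq, not_forall, not_not] at hcY
        obtain ⟨z, hz, hR⟩ := hcY
        have hz' : z ∈ Y := mem_coe.1 hz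
        by_contra hT
        have hbig : ∀ k, δ * H < |FF (fun x : KK e => ((c x.1 x.2 : ℤ) : ℝ)) k z| := by
          intro k
          by_contra hk
          push Not at hk
          exact hT (mem_biUnion.2 ⟨z, hz', mem_biUnion.2 ⟨k, mem_univ k,
            mem_filter.2 ⟨hmemB, hk⟩⟩⟩)
        obtain ⟨hρ0, -, hρ2⟩ := hρ z (hYU z hz')
        obtain ⟨s, hs⟩ : ∃ s : Fin r × Fin 3 → ℤ, ∀ k,
            (0 < FF (fun x : KK e => ((c x.1 x.2 : ℤ) : ℝ)) k z → s k = 1) ∧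
            (¬ 0 < FF (fun x : KK e => ((c x.1 x.2 : ℤ) : ℝ)) k z → s k = -1) :=
          ⟨fun k => if 0 < FF (fun x : KK e => ((c x.1 x.2 : ℤ) : ℝ)) k z then 1 else -1,
            fun k => ⟨fun h => if_pos h, fun h => if_neg h⟩⟩
        have hs1 : ∀ k, s k = 1 → 0 < FF (fun x : KK e => ((c x.1 x.2 : ℤ) : ℝ)) k z := by
          intro k hk
          by_contra h4
          have := (hs k).2 h4
          omega
        have hs2 : ∀ k, s k = -1 → FF (fun x : KK e => ((c x.1 x.2 : ℤ) : ℝ)) k z < 0 := by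
          intro k hk
          have h4 : ¬ 0 < FF (fun x : KK e => ((c x.1 x.2 : ℤ) : ℝ)) k z := by
            intro h4
            have := (hs k).1 h4
            omega
          exact lt_of_le_of_ne (not_lt.1 h4) (hR.1 k)
        apply hnot
        refine ⟨(z - ρ z, z + ρ z), mem_image_of_mem _ hz', s, ?_, ?_⟩
        · refine ⟨fun k => ?_, fun i => ⟨?_, ?_⟩⟩
          · by_cases h4 : 0 < FF (fun x : KK e => ((c x.1 x.2 : ℤ) : ℝ)) k z
            · exact Or.inl ((hs k).1 h4)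
            · exact Or.inr ((hs k).2 h4)
          · rintro ⟨h1, h2, h3⟩
            exact (hR.2 i).1 ⟨hs1 _ h1, hs1 _ h2, hs2 _ h3⟩
          · rintro ⟨h1, h2, h3⟩
            exact (hR.2 i).2 ⟨hs2 _ h1, hs2 _ h2, hs1 _ h3⟩
        · intro k z' h1 h2
          have h3 := FF_near (c := fun x : KK e => c x.1 x.2) (H := H)
            (fun x => by
              have := mem_Icc.1 (hbox x)
              exact abs_le.2 this) k (hρ2 z' ⟨h1.le, h2.le⟩ k)
          have h4 := hbig k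
          rw [fmv_eq]
          obtain ⟨h5, h6⟩ := abs_le.1 h3
          by_cases h7 : 0 < FF (fun x : KK e => ((c x.1 x.2 : ℤ) : ℝ)) k z
          · rw [(hs k).1 h7, Int.cast_one, one_mul]
            rw [abs_of_pos h7] at h4
            linarith
          · rw [(hs k).2 h7, Int.cast_neg, Int.cast_one, neg_one_mul]
            rw [abs_of_nonpos (not_lt.1 h7)] at h4
            linarith
    · intro c _ d _ hcd
      funext k j
      exact congrFun hcd (⟨k, j⟩ : KK e)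
  rw [← hN]
  calc (((BXI e H).filter (fun c => (∃ z ∈ U, PS c (1 : ℝ) z) ∧
      ¬ ∃ w ∈ (Y.image fun z => (z - ρ z, z + ρ z)), ∃ s : Fin r × Fin 3 → ℤ, SS s ∧
        ∀ k, ∀ z : ℝ, w.1 < z → z < w.2 → 0 < (s k : ℝ) * fmv (c k) 1 z)).card : ℝ)
      ≤ ((T1 ∪ T2).card : ℝ) := Nat.cast_le.2 hcov
    _ ≤ (T1.card : ℝ) + T2.card := by exact_mod_cast card_union_le T1 T2
    _ ≤ η / 2 * L ^ N + η / 2 * L ^ N := add_le_add hT1c hT2c
    _ = η * L ^ N := by ring

end Pool.Agent.N713.DC
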